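import Pool.Agent.Lib.MP_991c8b_co.Main

/-!
# The strict reverse Hamiltonian game for all biases up to c n / (log log n)^2

There are an absolute constant c > 0 and N such that for all n ≥ N and EVERY integer f with
1 ≤ f ≤ c n / (log log n)^2 Forcer wins the strict (1 : f) reverse Hamiltonian game on K_n,
Avoider moving first. A position is (A, F, t): the edges of Avoider, the edges of Forcer, and
t = true if Avoider is to move. As in the formal statement of Q1, Forcer can force a win if and
only if the initial position lies in every set S of positions which contains all final positions in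
which the graph of Avoider is Hamiltonian, all positions (Avoider to move) from which every move of
Avoider leads to S, and all positions (Forcer to move) from which some move of Forcer leads to S.
-/

namespace Pool.Agent.Results.MP_991c8b_co.LargeBias

theorem result :
    ∃ c : ℝ, 0 < c ∧ ∃ N : ℕ, ∀ n : ℕ, N ≤ n → ∀ f : ℕ, 1 ≤ f →
      (f : ℝ) ≤ c * n / Real.log (Real.log n) ^ 2 →
      ∀ S : Set (Finset (Sym2 (Fin n)) × Finset (Sym2 (Fin n)) × Bool),
        (∀ A F : Finset (Sym2 (Fin n)), ∀ t : Bool,
          (⊤ : SimpleGraph (Fin n)).edgeFinset ⊆ A ∪ F →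
          (∃ a : Fin n, ∃ p : (SimpleGraph.fromEdgeSet (A : Set (Sym2 (Fin n)))).Walk a a,
              p.IsHamiltonianCycle) →
          (A, F, t) ∈ S) →
        (∀ A F : Finset (Sym2 (Fin n)),
          ((⊤ : SimpleGraph (Fin n)).edgeFinset \ (A ∪ F)).Nonempty →
          (∀ e ∈ (⊤ : SimpleGraph (Fin n)).edgeFinset \ (A ∪ F), (insert e A, F, false) ∈ S) →
          (A, F, true) ∈ S) →
        (∀ A F : Finset (Sym2 (Fin n)),
          ((⊤ : SimpleGraph (Fin n)).edgeFinset \ (A ∪ F)).Nonempty →
          (∃ B ⊆ (⊤ : SimpleGraph (Fin n)).edgeFinset \ (A ∪ F),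
            B.card = min f ((⊤ : SimpleGraph (Fin n)).edgeFinset \ (A ∪ F)).card ∧
            (A, F ∪ B, true) ∈ S) →
          (A, F, false) ∈ S) →
        ((∅ : Finset (Sym2 (Fin n))), (∅ : Finset (Sym2 (Fin n))), true) ∈ S := by
  obtain ⟨c, hc, N, h⟩ := AF.af_main
  refine ⟨c, hc, N, fun n hn f hf hfc S h1 h2 h3 => ?_⟩
  exact h n hn f hf hfc S (fun A F t hX hA => h1 A F t hX (AF.ham_conv A hA)) h2 h3

end Pool.Agent.Results.MP_991c8b_co.LargeBias
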